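import Pool.Agent.helper16.LW.Spec

/-!
# Project lw: RHO, Parseval and periodicity for the sums `∑ F j e^(ijx)`
-/

set_option autoImplicit false

open Complex MeasureTheory

namespace Pool.Agent.LW

open Pool.Agent.ZD Pool.Agent.helper84.DM Pool.Agent.helper78.ED Pool.Agent.DH

theorem RHO_cont (J : ℕ) (F : ℤ → ℝ) : Continuous (rF J F) := by
  unfold rF
  fun_prop

theorem RHO_re (J : ℕ) (F : ℤ → ℝ) (x : ℝ) :
    (rF J F x).re = ∑ j ∈ IJ J, F j * Real.cos ((j : ℝ) * x) := by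
  unfold rF
  rw [Complex.re_sum]
  refine Finset.sum_congr rfl fun j _ => ?_
  rw [Complex.re_ofReal_mul, Complex.exp_ofReal_mul_I_re]

theorem RHO_im (J : ℕ) (F : ℤ → ℝ) (x : ℝ) :
    (rF J F x).im = ∑ j ∈ IJ J, F j * Real.sin ((j : ℝ) * x) := by
  unfold rF
  rw [Complex.im_sum]
  refine Finset.sum_congr rfl fun j _ => ?_
  rw [Complex.im_ofReal_mul, Complex.exp_ofReal_mul_I_im]

theorem RHO_nsq (J : ℕ) (F : ℤ → ℝ) (x : ℝ) :
    ‖rF J F x‖ ^ 2 = ∑ j ∈ IJ J, ∑ l ∈ IJ J, F j * F l * Real.cos (((j : ℝ) - l) * x) := by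
  rw [Complex.sq_norm, Complex.normSq_apply, RHO_re, RHO_im, Finset.sum_mul_sum,
    Finset.sum_mul_sum, ← Finset.sum_add_distrib]
  refine Finset.sum_congr rfl fun j _ => ?_
  rw [← Finset.sum_add_distrib]
  refine Finset.sum_congr rfl fun l _ => ?_
  rw [sub_mul, Real.cos_sub]
  ring

theorem RHO_even (J : ℕ) (F : ℤ → ℝ) (x : ℝ) : ‖rF J F (-x)‖ = ‖rF J F x‖ := by
  have h : ‖rF J F (-x)‖ ^ 2 = ‖rF J F x‖ ^ 2 := by
    rw [RHO_nsq, RHO_nsq]
    refine Finset.sum_congr rfl fun j _ => Finset.sum_congr rfl fun l _ => ?_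
    rw [mul_neg, Real.cos_neg]
  exact (sq_eq_sq₀ (norm_nonneg _) (norm_nonneg _)).1 h

theorem RHO_le (J : ℕ) (F : ℤ → ℝ) (x : ℝ) : ‖rF J F x‖ ≤ ∑ j ∈ IJ J, |F j| := by
  unfold rF
  refine (norm_sum_le _ _).trans (Finset.sum_le_sum fun j _ => ?_)
  rw [norm_mul, Complex.norm_real, Complex.norm_exp_ofReal_mul_I, mul_one, Real.norm_eq_abs]

theorem RHO_int (j l : ℤ) :
    ∫ x in (-Real.pi)..Real.pi, Real.cos (((j : ℝ) - l) * x) =
      if j = l then 2 * Real.pi else 0 := by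
  split_ifs with h
  · subst h
    simp only [sub_self, zero_mul, Real.cos_zero, intervalIntegral.integral_const, smul_eq_mul,
      mul_one]
    ring
  · have hm : ((j : ℝ) - l) ≠ 0 := by
      rw [sub_ne_zero]
      exact_mod_cast h
    have h1 : ∀ x ∈ Set.uIcc (-Real.pi) Real.pi,
        HasDerivAt (fun x : ℝ => Real.sin (((j : ℝ) - l) * x) / ((j : ℝ) - l))
          (Real.cos (((j : ℝ) - l) * x)) x := by
      intro x _
      have h2 : HasDerivAt (fun x : ℝ => ((j : ℝ) - l) * x) ((j : ℝ) - l) x := by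
        simpa using (hasDerivAt_id x).const_mul ((j : ℝ) - l)
      have h3 := (h2.sin).div_const ((j : ℝ) - l)
      have h4 : Real.cos (((j : ℝ) - l) * x) * ((j : ℝ) - l) / ((j : ℝ) - l) =
          Real.cos (((j : ℝ) - l) * x) := by
        field_simp
      rwa [h4] at h3
    rw [intervalIntegral.integral_eq_sub_of_hasDerivAt h1
      (Continuous.intervalIntegrable (by fun_prop) _ _)]
    have h5 : Real.sin (((j : ℝ) - l) * Real.pi) = 0 := by
      have := Real.sin_int_mul_pi (j - l)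
      rwa [Int.cast_sub] at this
    have h6 : Real.sin (((j : ℝ) - l) * -Real.pi) = 0 := by
      rw [mul_neg, Real.sin_neg, h5, neg_zero]
    rw [h5, h6]
    simp

theorem RHO_par (J : ℕ) (F : ℤ → ℝ) :
    ∫ x in (-Real.pi)..Real.pi, ‖rF J F x‖ ^ 2 = 2 * Real.pi * ∑ j ∈ IJ J, F j ^ 2 := by
  have h1 : (fun x : ℝ => ‖rF J F x‖ ^ 2) =
      fun x : ℝ => ∑ j ∈ IJ J, ∑ l ∈ IJ J, F j * F l * Real.cos (((j : ℝ) - l) * x) :=
    funext fun x => RHO_nsq J F x
  rw [h1, intervalIntegral.integral_finsetSum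
    (fun j _ => Continuous.intervalIntegrable (by fun_prop) _ _), Finset.mul_sum]
  refine Finset.sum_congr rfl fun j hj => ?_
  rw [intervalIntegral.integral_finsetSum
    (fun l _ => Continuous.intervalIntegrable (by fun_prop) _ _)]
  have h2 : ∀ l ∈ IJ J, ∫ x in (-Real.pi)..Real.pi, F j * F l * Real.cos (((j : ℝ) - l) * x) =
      if j = l then 2 * Real.pi * F j ^ 2 else 0 := by
    intro l _
    rw [intervalIntegral.integral_const_mul, RHO_int]
    split_ifs with h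
    · subst h; ring
    · ring
  rw [Finset.sum_congr rfl h2, Finset.sum_ite_eq, if_pos hj]

theorem RHO_per (J : ℕ) (F : ℤ → ℝ) (p : ℕ) :
    Function.Periodic (fun x : ℝ => ‖rF J F x‖ ^ p) (2 * Real.pi) := by
  intro x
  have h : ‖rF J F (x + 2 * Real.pi)‖ ^ 2 = ‖rF J F x‖ ^ 2 := by
    rw [RHO_nsq, RHO_nsq]
    refine Finset.sum_congr rfl fun j _ => Finset.sum_congr rfl fun l _ => ?_
    have h1 : ((j : ℝ) - l) * (x + 2 * Real.pi) =
        ((j : ℝ) - l) * x + ((j - l : ℤ) : ℝ) * (2 * Real.pi) := by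
      push_cast; ring
    rw [h1, Real.cos_add_int_mul_two_pi]
  have h2 : ‖rF J F (x + 2 * Real.pi)‖ = ‖rF J F x‖ :=
    (sq_eq_sq₀ (norm_nonneg _) (norm_nonneg _)).1 h
  show ‖rF J F (x + 2 * Real.pi)‖ ^ p = ‖rF J F x‖ ^ p
  rw [h2]

theorem RHO : RHO_stmt := by
  intro J F
  refine ⟨RHO_cont J F, RHO_even J F, RHO_le J F, RHO_par J F, fun p => ?_⟩
  have hc : Continuous fun x : ℝ => ‖rF J F x‖ ^ p := ((RHO_cont J F).norm).pow p
  have hper := RHO_per J F p
  have hpi : (3 : ℝ) < Real.pi := Real.pi_gt_three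
  have h1 : ∫ x in (-5 : ℝ)..5, ‖rF J F x‖ ^ p ≤
      ∫ x in (-(2 * Real.pi))..(2 * Real.pi), ‖rF J F x‖ ^ p :=
    intervalIntegral.integral_mono_interval (by linarith) (by norm_num) (by linarith)
      (Filter.Eventually.of_forall fun x => pow_nonneg (norm_nonneg _) p)
      (hc.intervalIntegrable _ _)
  refine h1.trans (le_of_eq ?_)
  rw [← intervalIntegral.integral_add_adjacent_intervals (hc.intervalIntegrable _ 0)
    (hc.intervalIntegrable 0 _)]
  have h2 : ∫ x in (-(2 * Real.pi))..0, ‖rF J F x‖ ^ p = ∫ x in (-Real.pi)..Real.pi, ‖rF J F x‖ ^ p := by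
    have := hper.intervalIntegral_add_eq (-(2 * Real.pi)) (-Real.pi)
    have e1 : -(2 * Real.pi) + 2 * Real.pi = 0 := by ring
    have e2 : -Real.pi + 2 * Real.pi = Real.pi := by ring
    rwa [e1, e2] at this
  have h3 : ∫ x in (0 : ℝ)..(2 * Real.pi), ‖rF J F x‖ ^ p =
      ∫ x in (-Real.pi)..Real.pi, ‖rF J F x‖ ^ p := by
    have := hper.intervalIntegral_add_eq 0 (-Real.pi)
    have e2 : -Real.pi + 2 * Real.pi = Real.pi := by ring
    rwa [zero_add, e2] at this
  rw [h2, h3]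
  ring

end Pool.Agent.LW
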